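import Pool.Agent.U738.KV.K0

/-!
# Products of affine schemes
-/

set_option autoImplicit false

open CategoryTheory CategoryTheory.Limits AlgebraicGeometry Pool.Agent.Y116.UV TensorProduct

namespace Pool.Agent.U738.KV

variable {k : Type} [Field k]

/-- the product of affine schemes -/
noncomputable def tmAff (A B : Type) [CommRing A] [CommRing B] [Algebra k A] [Algebra k B] :
    tm (aff k A) (aff k B) ≅ aff k (A ⊗[k] B) :=
  Over.isoMk (pullbackSpecIso k A B) (by
    change (pullbackSpecIso k A B).hom ≫ Spec.map (CommRingCat.ofHom (algebraMap k (A ⊗[k] B))) =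
      pullback.fst (Spec.map (CommRingCat.ofHom (algebraMap k A)))
        (Spec.map (CommRingCat.ofHom (algebraMap k B))) ≫
        Spec.map (CommRingCat.ofHom (algebraMap k A))
    rw [← pullbackSpecIso_hom_fst, Category.assoc, ← Spec.map_comp, ← CommRingCat.ofHom_comp])

/-- Laurent polynomials as a tensor product -/
noncomputable def laurentTensor (A : Type) [CommRing A] [Algebra k A] :
    A ⊗[k] LaurentPolynomial k ≃ₐ[k] LaurentPolynomial A :=
  (AddMonoidAlgebra.scalarTensorEquiv k A).restrictScalars k

end Pool.Agent.U738.KV
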