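import Pool.Agent.U738.KV.Main
import Pool.Agent.Z125.UN.Dim2

/-!
# Schemes built from pieces whose classes are generated by varieties which satisfy the conjecture B
-/

set_option autoImplicit false

open CategoryTheory AlgebraicGeometry Pool.Agent.Y116.UV TensorProduct Pool.Agent.U738.BN
  Pool.Agent.U738.CX Pool.Agent.Z125.UN

universe v

namespace Pool.Agent.U738.KV

open Pool.Agent.H914 VarClass Obj WeilCohomology

variable {k : Type} [Field k] {𝒱 : VarClass k} {ops : CycleOps 𝒱}

variable {W : WeilCohomology.{0, v} ops}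

lemma dim_laurent_le : ringKrullDim (LaurentPolynomial k) ≤ 2 := by
  have h1 : ringKrullDim (LaurentPolynomial k) = ringKrullDim (Localization.Away
      (Polynomial.X : Polynomial k)) :=
    ringKrullDim_eq_of_ringEquiv (IsLocalization.algEquiv (Submonoid.powers (Polynomial.X :
      Polynomial k)) (LaurentPolynomial k) (Localization.Away (Polynomial.X :
      Polynomial k))).toRingEquiv
  rw [h1]
  refine (dim_loc_le (Polynomial.X : Polynomial k)).trans ?_
  rw [Polynomial.ringKrullDim_of_isNoetherianRing, ringKrullDim_eq_zero_of_field]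
  norm_num

/-- the class is closed under the operations that are used for two-term equations and gradings -/
theorem posD_good (hS : ∀ Z : Sch k, FT True Z → topologicalKrullDim Z.left ≤ 2 →
    cls Z ∈ gen (goodSet W)) : PosD True (fun Z : Sch k => cls Z ∈ gen (goodSet W)) 2 where
  iso hX e h := (cls_iso hX e) ▸ h
  total i j hX ht h1 h2 := by
    rw [cls_cut i j hX ht]
    exact (gen (goodSet W)).add_mem h1 h2
  times A _ _ _ h := by
    have h1 : cls (aff k (LaurentPolynomial k)) ∈ gen (goodSet W) := by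
      refine hS _ (ft_aff True) ?_
      rw [topDim_aff]
      exact dim_laurent_le
    have h2 := good_mul (ft_aff True) h h1
    have h3 : Nonempty (tm (aff k A) (aff k (LaurentPolynomial k)) ≅
        aff k (LaurentPolynomial A)) :=
      ⟨(tmAff A (LaurentPolynomial k)).trans (affIso (laurentTensor A)).symm⟩
    rw [← cls_iso (ft_tm (ft_aff True) (ft_aff True)) h3]
    exact h2
  dim A _ _ _ hA := by
    refine hS _ (ft_aff True) ?_
    rw [topDim_aff]
    exact hA

lemma ft_iso {S T : Sch k} (h : FT True S) (e : S ≅ T) : FT True T := by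
  have h1 : IsIso e.inv.left := inferInstanceAs (IsIso ((Over.forget _).map e.inv))
  exact Pool.Agent.U583.MW.ft_closed e.inv h inferInstance

/-- the classes of the schemes that are built from pieces -/
theorem built_mem (hS : ∀ Z : Sch k, FT True Z → topologicalKrullDim Z.left ≤ 2 →
    cls Z ∈ gen (goodSet W)) {Z : Sch k} (h : Built (goodSet W) Z) :
    FT True Z ∧ cls Z ∈ gen (goodSet W) := by
  have hP := posD_good hS
  induction h with
  | mem Z h =>
    refine ⟨?_, cls_mem_gen h⟩
    obtain ⟨Y, E, -, -, -, rfl⟩ := h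
    exact ft_sch Y
  | dim Z h1 h2 => exact ⟨h1, hS Z h1 h2⟩
  | terms S n G h1 h2 =>
    have h3 : Algebra.FiniteType k (MvPolynomial (Fin n) S ⧸ Ideal.span G) :=
      Algebra.FiniteType.trans (S := S) inferInstance inferInstance
    exact ⟨ft_aff True, two_terms hP S h1 n G h2⟩
  | graded A Γ 𝒜 h => exact ⟨ft_aff True, for_complexity hP A Γ 𝒜 h⟩
  | prod S T _ _ h1 h2 => exact ⟨ft_tm h1.1 h2.1, good_mul h2.1 h1.2 h2.2⟩
  | iso S T e _ h => exact ⟨e.elim (ft_iso h.1), (cls_iso h.1 e) ▸ h.2⟩
  | glue i j hX ht _ _ h1 h2 =>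
    refine ⟨hX, ?_⟩
    rw [cls_cut i j hX ht]
    exact (gen (goodSet W)).add_mem h1.2 h2.2
  | opened i j hX ht _ _ h1 h2 =>
    refine ⟨Pool.Agent.U583.MW.ft_opened j hX ht.opened, ?_⟩
    have h3 := h2.2
    rw [cls_cut i j hX ht] at h3
    exact ((gen (goodSet W)).add_mem_cancel_left h1.2).mp h3
  | closed i j hX ht _ _ h1 h2 =>
    refine ⟨Pool.Agent.U583.MW.ft_closed i hX ht.closed, ?_⟩
    have h3 := h2.2
    rw [cls_cut i j hX ht] at h3
    exact ((gen (goodSet W)).add_mem_cancel_right h1.2).mp h3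

/-- **The conjecture B for varieties built from pieces, up to a closed subset of small dimension.** -/
theorem B_of_built (hW : IsMotivic W)
    (hS : ∀ Z : Sch k, FT True Z → topologicalKrullDim Z.left ≤ 2 → cls Z ∈ gen (goodSet W))
    {X : 𝒱.Obj} {D : X.Cycles} (hD : X.IsCyc 1 D) (hHL : HardLefschetz W X D) {Z U : Sch k}
    (i : Z ⟶ sch X) (j : U ⟶ sch X) (ht : IsTriple i j) (hU : Built (goodSet W) U) {m : ℕ}
    (hm : topologicalKrullDim Z.left ≤ m) (hmn : 2 * m < X.dim) : LefschetzB W X D := by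
  refine (B_iff hW hD hHL).mpr ?_
  rw [cls_cut i j (ft_sch X) ht]
  exact AddSubgroup.add_mem _ (cls_mem_gen (Or.inr
    ⟨Pool.Agent.U583.MW.ft_closed i (ft_sch X) ht.closed, m, hm, hmn⟩))
    (gen_mono Set.subset_union_left (built_mem hS hU).2)

/-- a variety and an open subscheme with a complement of small dimension -/
lemma small_diff {X : 𝒱.Obj} {Z U : Sch k} (i : Z ⟶ sch X) (j : U ⟶ sch X) (ht : IsTriple i j)
    {m n : ℕ} (hm : topologicalKrullDim Z.left ≤ m) (hmn : 2 * m < n) :
    cls (sch X) - cls U ∈ gen (smallSet k n) := by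
  rw [cls_cut i j (ft_sch X) ht, add_sub_cancel_right]
  exact cls_mem_gen ⟨Pool.Agent.U583.MW.ft_closed i (ft_sch X) ht.closed, m, hm, hmn⟩

/-- **Varieties that are isomorphic outside closed subsets of small dimension.** -/
theorem B_of_open (hW : IsMotivic W) {X X' : 𝒱.Obj} {D : X.Cycles} {D' : X'.Cycles}
    (hD : X.IsCyc 1 D) (hHL : HardLefschetz W X D) (hD' : X'.IsCyc 1 D')
    (hHL' : HardLefschetz W X' D') {Z Z' U U' : Sch k} (i : Z ⟶ sch X) (j : U ⟶ sch X)
    (ht : IsTriple i j) (i' : Z' ⟶ sch X') (j' : U' ⟶ sch X') (ht' : IsTriple i' j')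
    (e : Nonempty (U ≅ U')) {m m' : ℕ} (hm : topologicalKrullDim Z.left ≤ m)
    (hm' : topologicalKrullDim Z'.left ≤ m') (h1 : 2 * m < X.dim) (h2 : 2 * m' < X.dim)
    (hB : LefschetzB W X' D') : LefschetzB W X D := by
  refine (B_iff hW hD hHL).mpr ?_
  have a1 := small_diff i j ht hm h1
  have a2 := small_diff i' j' ht' hm' h2
  have a3 : cls U = cls U' :=
    cls_iso (Pool.Agent.U583.MW.ft_opened j (ft_sch X) ht.opened) e
  have a4 := mem_good hD' hHL' hB
  have e1 : cls (sch X) = cls (sch X') + ((cls (sch X) - cls U) - (cls (sch X') - cls U')) := by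
    rw [a3]
    abel
  rw [e1]
  exact AddSubgroup.add_mem _ (gen_mono Set.subset_union_left a4)
    (gen_mono Set.subset_union_right ((gen (smallSet k X.dim)).sub_mem a1 a2))

end Pool.Agent.U738.KV
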