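import Pool.Agent.U738.KV.CDefs
import Pool.Agent.U738.KV.Built
import Pool.Agent.N103.OC.Final
import Pool.Agent.TH133.PW.Ev

/-!
# Künneth projectors and the class in the Grothendieck group
-/

set_option autoImplicit false

open CategoryTheory AlgebraicGeometry Pool.Agent.Y116.UV

universe v

namespace Pool.Agent.U738.KV

open Pool.Agent.H914 Pool.Agent.H447 VarClass Obj WeilCohomology

variable {k : Type} [Field k] {𝒱 : VarClass k} {ops : CycleOps 𝒱} {W : WeilCohomology.{0, v} ops}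
  {X Y V : 𝒱.Obj}

/-- linear maps as maps -/
noncomputable def toFun' (W : WeilCohomology.{0, v} ops) (X Y : 𝒱.Obj) :
    (W.H X →ₗ[W.K] W.H Y) →ₗ[W.K] (W.H X → W.H Y) := LinearMap.ltoFun W.K (W.H X) (W.H Y) W.K

lemma toFun'_inj : Function.Injective (toFun' W X Y) := DFunLike.coe_injective

lemma kop_zero_eq : (KOp W X Y 0) = Submodule.span W.K
    {φ | ∃ z, (X.prod Y).IsCyc X.dim z ∧ W.corr (W.cl _ z) = φ} := by
  rw [KOp]
  congr 1
  ext φ
  constructor
  · rintro ⟨p, hp, z, hz, rfl⟩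
    obtain rfl : p = X.dim := by omega
    exact ⟨z, hz, rfl⟩
  · rintro ⟨z, hz, rfl⟩
    exact ⟨X.dim, by simp, z, hz, rfl⟩

lemma isAlgMap_iff {f : W.H X → W.H Y} :
    IsAlgMap W X Y f ↔ ∃ φ ∈ KOp W X Y 0, toFun' W X Y φ = f := by
  have e1 : {f | ∃ z, (X.prod Y).IsCyc X.dim z ∧ f = corrFun W X Y z} = toFun' W X Y ''
      {φ | ∃ z, (X.prod Y).IsCyc X.dim z ∧ W.corr (W.cl _ z) = φ} := by
    ext f
    constructor
    · rintro ⟨z, hz, rfl⟩
      exact ⟨_, ⟨z, hz, rfl⟩, rfl⟩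
    · rintro ⟨_, ⟨z, hz, rfl⟩, rfl⟩
      exact ⟨z, hz, rfl⟩
  rw [IsAlgMap, e1, ← Submodule.map_span, ← kop_zero_eq]
  exact Iff.rfl

/-- the algebraic maps which vanish outside the degrees in `S` -/
noncomputable def onlySpace (W : WeilCohomology.{0, v} ops) (X Y : 𝒱.Obj) (S : Set ℕ) :
    Submodule W.K (W.H X →ₗ[W.K] W.H Y) where
  carrier := {f | f ∈ KOp W X Y 0 ∧ ∀ j, j ∉ S → ∀ a ∈ W.gr X j, f a = 0}
  add_mem' := by
    rintro f g ⟨hf, hf'⟩ ⟨hg, hg'⟩
    refine ⟨Submodule.add_mem _ hf hg, fun j hj a ha => ?_⟩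
    rw [LinearMap.add_apply, hf' j hj a ha, hg' j hj a ha, add_zero]
  zero_mem' := ⟨Submodule.zero_mem _, fun _ _ _ _ => rfl⟩
  smul_mem' := by
    rintro c f ⟨hf, hf'⟩
    refine ⟨Submodule.smul_mem _ _ hf, fun j hj a ha => ?_⟩
    rw [LinearMap.smul_apply, hf' j hj a ha, smul_zero]

/-- the restriction to the homogeneous elements of degrees in `S` -/
noncomputable def resMap (W : WeilCohomology.{0, v} ops) (X Y : 𝒱.Obj) (S : Set ℕ) :
    (W.H X →ₗ[W.K] W.H Y) →ₗ[W.K] (GrS W X S → W.H Y) where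
  toFun f := fun a => f a.1
  map_add' _ _ := rfl
  map_smul' _ _ := rfl

lemma finrank_set_map {M M' : Type*} [AddCommGroup M] [Module W.K M] [AddCommGroup M']
    [Module W.K M'] (T : M →ₗ[W.K] M') (A : Submodule W.K M) {s : Set M'}
    (hs : s = T '' (A : Set M)) : Set.finrank W.K s = Module.finrank W.K (A.map T) := by
  rw [Set.finrank, hs, ← Submodule.map_span, Submodule.span_eq]

lemma onlyRank_eq {S : Set ℕ} :
    onlyRank W X Y S = Module.finrank W.K (onlySpace W X Y S) := by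
  rw [onlyRank, finrank_set_map (toFun' W X Y) (onlySpace W X Y S)]
  · exact (LinearEquiv.finrank_eq (Submodule.equivMapOfInjective _ toFun'_inj _)).symm
  · ext f
    constructor
    · rintro ⟨h1, h2⟩
      obtain ⟨φ, hφ, rfl⟩ := isAlgMap_iff.mp h1
      exact ⟨φ, ⟨hφ, h2⟩, rfl⟩
    · rintro ⟨φ, ⟨hφ, h2⟩, rfl⟩
      exact ⟨isAlgMap_iff.mpr ⟨φ, hφ, rfl⟩, h2⟩

lemma resRank_eq {S : Set ℕ} :
    resRank W X Y S = Module.finrank W.K ((KOp W X Y 0).map (resMap W X Y S)) := by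
  rw [resRank, finrank_set_map (resMap W X Y S) (KOp W X Y 0)]
  ext g
  constructor
  · rintro ⟨f, hf, rfl⟩
    obtain ⟨φ, hφ, rfl⟩ := isAlgMap_iff.mp hf
    exact ⟨φ, hφ, rfl⟩
  · rintro ⟨φ, hφ, rfl⟩
    exact ⟨_, isAlgMap_iff.mpr ⟨φ, hφ, rfl⟩, rfl⟩

lemma blockStd_iff {S : Set ℕ} : BlockStd W X S ↔ ∃ P ∈ KOp W X X 0,
    (∀ j ∈ S, ∀ a ∈ W.gr X j, P a = a) ∧ ∀ j, j ∉ S → ∀ a ∈ W.gr X j, P a = 0 := by
  constructor
  · rintro ⟨f, hf, h1, h2⟩
    obtain ⟨φ, hφ, rfl⟩ := isAlgMap_iff.mp hf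
    exact ⟨φ, hφ, h1, h2⟩
  · rintro ⟨φ, hφ, h1, h2⟩
    exact ⟨_, isAlgMap_iff.mpr ⟨φ, hφ, rfl⟩, h1, h2⟩

lemma kop_gr0 {f : W.H X →ₗ[W.K] W.H Y} (hf : f ∈ KOp W X Y 0) {j : ℕ} {a : W.H X}
    (ha : a ∈ W.gr X j) : f a ∈ W.gr Y j := by
  have h1 := KOp.isHom hf j a (by rw [grZ_natCast]; exact ha)
  rwa [mul_zero, add_zero, grZ_natCast] at h1

/-- the restriction is injective on the maps which vanish outside `S` -/
lemma finrank_only_map {S : Set ℕ} :
    Module.finrank W.K ((onlySpace W X Y S).map (resMap W X Y S)) =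
      Module.finrank W.K (onlySpace W X Y S) := by
  have hinj : Function.Injective ((resMap W X Y S).domRestrict (onlySpace W X Y S)) := by
    rintro ⟨f, hf, hf'⟩ ⟨g, hg, hg'⟩ h0
    apply Subtype.ext
    apply gr_ext (W.isInternal X)
    intro j a ha
    by_cases hj : j ∈ S
    · exact congrArg (fun g => g ⟨a, j, hj, ha⟩) h0
    · exact (hf' j hj a ha).trans (hg' j hj a ha).symm
  have h1 := LinearMap.finrank_range_of_inj hinj
  rwa [LinearMap.range_domRestrict] at h1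

lemma only_le {S : Set ℕ} : (onlySpace W X Y S).map (resMap W X Y S) ≤
    (KOp W X Y 0).map (resMap W X Y S) := Submodule.map_mono fun _ h => h.1

/-- **The projector gives the equality of the ranks.** -/
theorem rank_of_block {S : Set ℕ} (h : BlockStd W Y S) (V : 𝒱.Obj) :
    resRank W V Y S = onlyRank W V Y S := by
  obtain ⟨P, hP, h1, h2⟩ := blockStd_iff.mp h
  rw [resRank_eq, onlyRank_eq, ← finrank_only_map]
  have key : (KOp W V Y 0).map (resMap W V Y S) = (onlySpace W V Y S).map (resMap W V Y S) := by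
    refine le_antisymm ?_ only_le
    rintro _ ⟨f, hf, rfl⟩
    refine ⟨P ∘ₗ f, ⟨KOp.cast (KOp.comp hP hf) (by ring), fun j hj a ha => ?_⟩, ?_⟩
    · exact h2 j hj _ (kop_gr0 hf ha)
    · funext ⟨a, j, hj, ha⟩
      exact h1 j hj _ (kop_gr0 hf ha)
  rw [key]

/-- **The equality of the ranks gives the projector.** -/
theorem block_of_rank {S : Set ℕ} (h : resRank W X X S = onlyRank W X X S) :
    BlockStd W X S := by
  rw [resRank_eq, onlyRank_eq, ← finrank_only_map] at h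
  have h1 : (onlySpace W X X S).map (resMap W X X S) = (KOp W X X 0).map (resMap W X X S) :=
    Submodule.eq_of_le_of_finrank_eq only_le h.symm
  have h2 : resMap W X X S LinearMap.id ∈ (onlySpace W X X S).map (resMap W X X S) := by
    rw [h1]
    exact ⟨_, KOp.id X, rfl⟩
  obtain ⟨φ, ⟨hφ, hφ'⟩, h3⟩ := h2
  refine blockStd_iff.mpr ⟨φ, hφ, fun j hj a ha => ?_, hφ'⟩
  exact congrArg (fun g => g ⟨a, j, hj, ha⟩) h3

/-- **The projector onto the degrees in `S` and the class.** -/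
theorem block_of_class (hW : IsMotivicS W) {S : Set ℕ} {N : ℕ} (hN : ∀ i ∈ S, N ≤ i)
    {T : Set (Sch k)} (hT : ∀ c ∈ T, ∃ Y : 𝒱.Obj, BlockStd W Y S ∧ c = sch Y)
    (h : cls (sch X) ∈ gen (T ∪ smallSet k N)) : BlockStd W X S := by
  apply block_of_rank
  obtain ⟨e1, a1, h1, h1'⟩ := hW.res X S
  obtain ⟨e2, a2, h2, h2'⟩ := hW.only X S
  have key : gen (T ∪ smallSet k N) ≤ AddMonoidHom.eqLocus a1.hom a2.hom := by
    rw [gen_le]
    rintro Z (hZ | ⟨hZ, m, hm, hmn⟩)
    · obtain ⟨Y, hY, rfl⟩ := hT Z hZ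
      change a1.hom _ = a2.hom _
      rw [a1.hom_cls, a2.hom_cls, h1, h2, rank_of_block hY X]
    · change a1.hom _ = a2.hom _
      have h4 : ∀ i ∈ S, 2 * m < i := fun i hi => hmn.trans_le (hN i hi)
      rw [a1.hom_cls, a2.hom_cls, h1' _ m hZ hm h4, h2' _ m hZ hm h4]
  have h3 : a1.hom (cls (sch X)) = a2.hom (cls (sch X)) := key h
  rw [a1.hom_cls, a2.hom_cls, h1, h2] at h3
  exact Nat.cast_injective h3

/-! ### Duality -/

/-- The transpose of the projector onto `H^i` is the projector onto `H^(2n - i)`. -/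
theorem block_dual {i : ℕ} (hi : i ≤ 2 * X.dim) (h : BlockStd W X {i}) :
    BlockStd W X {2 * X.dim - i} := by
  obtain ⟨P, hP, h1, h2⟩ := blockStd_iff.mp h
  obtain ⟨S, hS, hadj⟩ := KOp.exists_adjoint hP
  have hS0 : S ∈ KOp W X X 0 := KOp.cast hS (by omega)
  refine blockStd_iff.mpr ⟨S, hS0, ?_, ?_⟩
  · rintro j rfl b hb
    rw [← sub_eq_zero]
    refine nondeg_right fun a => ?_
    have key : ∀ (l : ℕ) (a : W.H X), a ∈ W.gr X l → W.tr X (a * (S b - b)) = 0 := by
      intro l a ha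
      rw [mul_sub, map_sub, ← hadj]
      by_cases hl : l = i
      · subst hl
        rw [h1 l rfl a ha, sub_self]
      · rw [h2 l hl a ha, zero_mul, map_zero, W.tr_eq_zero (W.mul_mem ha hb) (by omega), sub_zero]
    have h3 : (LinearMap.mulRight W.K (S b - b)).comp LinearMap.id = LinearMap.mulRight W.K (S b - b) :=
      rfl
    have h4 : (W.tr X) ∘ₗ LinearMap.mulRight W.K (S b - b) = 0 := by
      apply gr_ext (W.isInternal X)
      intro l a ha
      exact key l a ha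
    exact congrArg (fun F => F a) h4
  · intro j hj b hb
    refine nondeg_right fun a => ?_
    have h4 : (W.tr X) ∘ₗ LinearMap.mulRight W.K (S b) = 0 := by
      apply gr_ext (W.isInternal X)
      intro l a ha
      change W.tr X (a * S b) = 0
      rw [← hadj]
      by_cases hl : l = i
      · subst hl
        rw [h1 l rfl a ha]
        exact W.tr_eq_zero (W.mul_mem ha hb) (by
          intro h5
          exact hj (show j = 2 * X.dim - l by omega))
      · rw [h2 l hl a ha, zero_mul, map_zero]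
    exact congrArg (fun F => F a) h4

end Pool.Agent.U738.KV
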