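import Pool.Agent.U738.KV.Defs

/-!
# Additive invariants of schemes and Künneth projectors: definitions
-/

set_option autoImplicit false

open CategoryTheory CategoryTheory.Limits AlgebraicGeometry Pool.Agent.Y116.UV

universe v

namespace Pool.Agent.U738.KV

open Pool.Agent.H914 VarClass Obj WeilCohomology

variable {k : Type} [Field k] {𝒱 : VarClass k} {ops : CycleOps 𝒱}

/-- The map `H(X) → H(Y)` given by the correspondence `z`. -/
noncomputable def corrFun (W : WeilCohomology.{0, v} ops) (X Y : 𝒱.Obj)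
    (z : (X.prod Y).Cycles) : W.H X → W.H Y := fun a => W.corr (W.cl _ z) a

/-- The algebraic maps `H(X) → H(Y)` of degree zero: the `K`-linear combinations of the maps given by
algebraic cycles of codimension `dim X` on `X × Y`. -/
def IsAlgMap (W : WeilCohomology.{0, v} ops) (X Y : 𝒱.Obj) (f : W.H X → W.H Y) : Prop :=
  f ∈ Submodule.span W.K {f | ∃ z, (X.prod Y).IsCyc X.dim z ∧ f = corrFun W X Y z}

/-- The homogeneous elements of `H(X)` of degrees in `S`. -/
def GrS (W : WeilCohomology.{0, v} ops) (X : 𝒱.Obj) (S : Set ℕ) : Type v :=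
  {a : W.H X // ∃ j ∈ S, a ∈ W.gr X j}

/-- The dimension of the space of the algebraic maps `H(X) → H(Y)` of degree zero which vanish on
`H^j(X)` for all `j` outside `S`. -/
noncomputable def onlyRank (W : WeilCohomology.{0, v} ops) (X Y : 𝒱.Obj) (S : Set ℕ) : ℕ :=
  Set.finrank W.K {f | IsAlgMap W X Y f ∧ ∀ j, j ∉ S → ∀ a ∈ W.gr X j, f a = 0}

/-- The dimension of the space of the restrictions of the algebraic maps `H(X) → H(Y)` of degree zero to
the (homogeneous elements of the) sum of the `H^j(X)`, `j ∈ S`. -/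
noncomputable def resRank (W : WeilCohomology.{0, v} ops) (X Y : 𝒱.Obj) (S : Set ℕ) : ℕ :=
  Set.finrank W.K {g : GrS W X S → W.H Y | ∃ f, IsAlgMap W X Y f ∧ g = fun a => f a.1}

/-- For every variety `V` and every set `S` of degrees the dimensions `resRank` and `onlyRank` are
additive invariants of `Z`: there are additive invariants of schemes with these values on the varieties
`Z` of the class, and they vanish on the schemes of dimension `m` if `2 m < i` for all `i ∈ S`. -/
structure IsMotivicS (W : WeilCohomology.{0, v} ops) : Prop where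
  res : ∀ (V : 𝒱.Obj) (S : Set ℕ), ∃ e : Sch k → ℤ, IsAdditive e ∧
    (∀ Z : 𝒱.Obj, e (sch Z) = resRank W V Z S) ∧
    ∀ (Z : Sch k) (m : ℕ), FT True Z → topologicalKrullDim Z.left ≤ m → (∀ i ∈ S, 2 * m < i) →
      e Z = 0
  only : ∀ (V : 𝒱.Obj) (S : Set ℕ), ∃ e : Sch k → ℤ, IsAdditive e ∧
    (∀ Z : 𝒱.Obj, e (sch Z) = onlyRank W V Z S) ∧
    ∀ (Z : Sch k) (m : ℕ), FT True Z → topologicalKrullDim Z.left ≤ m → (∀ i ∈ S, 2 * m < i) →
      e Z = 0

/-- The projector of `H(X)` onto the sum of the `H^j(X)`, `j ∈ S`, along the sum of the other `H^j(X)` is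
an algebraic map (a combination of algebraic cycles with coefficients in `K`). -/
def BlockStd (W : WeilCohomology.{0, v} ops) (X : 𝒱.Obj) (S : Set ℕ) : Prop :=
  ∃ f : W.H X → W.H X, IsAlgMap W X X f ∧ (∀ j ∈ S, ∀ a ∈ W.gr X j, f a = a) ∧
    ∀ j, j ∉ S → ∀ a ∈ W.gr X j, f a = 0

end Pool.Agent.U738.KV
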