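import Pool.Agent.U738.KV.CDefs

/-!
# The subgroups generated by varieties with the Künneth conjecture: definitions
-/

set_option autoImplicit false

open CategoryTheory CategoryTheory.Limits AlgebraicGeometry Pool.Agent.Y116.UV

universe v

namespace Pool.Agent.U738.KV

open Pool.Agent.H914 VarClass Obj WeilCohomology

variable {k : Type} [Field k] {𝒱 : VarClass k} {ops : CycleOps 𝒱}

/-- The Künneth conjecture for `X`: for every `i` the projector onto `H^i(X)` is a combination of algebraic
cycles with coefficients in `K`. -/
def KunnethC (W : WeilCohomology.{0, v} ops) (X : 𝒱.Obj) : Prop := ∀ i, BlockStd W X {i}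

/-- The varieties `Y` of the class with the Künneth conjecture. -/
def kunSet (W : WeilCohomology.{0, v} ops) : Set (Sch k) := {c | ∃ Y, KunnethC W Y ∧ c = sch Y}

/-- The class of `Z` is generated by the classes of the varieties `Y` whose Künneth components of degrees
greater than `n` are algebraic and the classes of the schemes of dimension at most `n / 2`. -/
def InGenC (W : WeilCohomology.{0, v} ops) (n : ℕ) (Z : Sch k) : Prop :=
  ClassIn ({c | ∃ Y, (∀ i, n < i → BlockStd W Y {i}) ∧ c = sch Y} ∪ smallSet k (n + 1)) Z

/-- This is so for all schemes of dimension at most `m`. -/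
def CoveredC (W : WeilCohomology.{0, v} ops) (n m : ℕ) : Prop :=
  ∀ Z : Sch k, FT True Z → topologicalKrullDim Z.left ≤ m → InGenC W n Z

end Pool.Agent.U738.KV
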