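import Pool.Agent.U738.KV.Kunneth
import Pool.Agent.U738.KV.CGen

/-!
# The Künneth conjecture and the class in the Grothendieck group: parts of the theorems
-/

set_option autoImplicit false

open CategoryTheory AlgebraicGeometry Pool.Agent.Y116.UV

universe v

namespace Pool.Agent.U738.KV

open Pool.Agent.H914 Pool.Agent.H447 VarClass Obj WeilCohomology

variable {k : Type} [Field k] {𝒱 : VarClass k} {ops : CycleOps 𝒱} {W : WeilCohomology.{0, v} ops}
  {X Y V : 𝒱.Obj}

/-- A general form of `all_of_class`. -/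
theorem all_of_class' (hW : IsMotivicS W) (h : InGenC W X.dim (sch X)) : KunnethC W X := by
  rw [InGenC, classIn_iff] at h
  have hgt : ∀ i, X.dim < i → BlockStd W X {i} := by
    intro i hi
    refine block_of_class hW (N := X.dim + 1) ?_ ?_ h
    · rintro j rfl
      exact hi
    · rintro c ⟨Y, hY, rfl⟩
      exact ⟨Y, hY i hi, rfl⟩
  have hne : ∀ i, i ≠ X.dim → BlockStd W X {i} := by
    intro i hi
    rcases Nat.lt_or_gt_of_ne hi with hlt | h'
    · have h1 := block_dual (X := X) (i := 2 * X.dim - i) (by omega) (hgt _ (by omega))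
      rwa [show 2 * X.dim - (2 * X.dim - i) = i by omega] at h1
    · exact hgt i h'
  intro i
  by_cases hi : i = X.dim
  · subst hi
    exact block_compl hne
  · exact hne i hi

lemma inGenC_of_kun (n : ℕ) {Z : Sch k} (h : cls Z ∈ gen (kunSet W)) : InGenC W n Z := by
  rw [InGenC, classIn_iff]
  refine gen_mono ?_ h
  rintro _ ⟨Y, hY, rfl⟩
  exact Or.inl ⟨Y, fun i _ => hY i, rfl⟩

lemma kun_ft : ∀ c ∈ kunSet W, FT True c := by
  rintro _ ⟨Y, -, rfl⟩
  exact ft_sch Y

lemma kun_mul : ∀ c ∈ kunSet W, ∀ c' ∈ kunSet W, tm c c' ∈ kunSet W := by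
  rintro _ ⟨Y, hY, rfl⟩ _ ⟨Y', hY', rfl⟩
  exact ⟨Y.prod Y', all_prod hY hY', rfl⟩

/-! ### Parts of the theorem on the Künneth conjecture -/

theorem partC_one (hW : IsMotivicS W) (X : 𝒱.Obj) (i : ℕ) : BlockStd W X {i} ↔
    ClassIn ({c | ∃ Y : 𝒱.Obj, BlockStd W Y {i} ∧ c = sch Y} ∪ smallSet k i) (sch X) := by
  rw [classIn_iff]
  constructor
  · exact fun h => cls_mem_gen (Or.inl ⟨X, h, rfl⟩)
  · refine block_of_class hW (N := i) ?_ ?_
    · rintro j rfl
      exact le_rfl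
    · exact fun c hc => hc

theorem partC_covered (n m : ℕ) (h : 2 * m ≤ n) : CoveredC W n m := fun _ hZ hm =>
  classIn_iff.mpr (cls_mem_gen (Or.inr ⟨hZ, m, hm, by omega⟩))

theorem partC_class (hW : IsMotivicS W) (X : 𝒱.Obj) : KunnethC W X ↔ InGenC W X.dim (sch X) :=
  ⟨fun h => inGenC_of_kun _ (cls_mem_gen ⟨X, h, rfl⟩), all_of_class' hW⟩

theorem partC_open (hW : IsMotivicS W) (X X' : 𝒱.Obj) (m : ℕ) (hdim : X.dim = X'.dim)
    (hs : CoveredC W X.dim m) (Z Z' U U' : Sch k) (i : Z ⟶ sch X)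
    (j : U ⟶ sch X) (i' : Z' ⟶ sch X') (j' : U' ⟶ sch X') (ht : IsTriple i j)
    (ht' : IsTriple i' j') (e : Nonempty (U ≅ U')) (hm : topologicalKrullDim Z.left ≤ m)
    (hm' : topologicalKrullDim Z'.left ≤ m) : KunnethC W X ↔ KunnethC W X' := by
  rw [partC_class hW X, partC_class hW X', ← hdim, InGenC, InGenC, classIn_iff, classIn_iff]
  have a1 := classIn_iff.mp (hs Z (Pool.Agent.U583.MW.ft_closed i (ft_sch X) ht.closed) hm)
  have a2 := classIn_iff.mp (hs Z' (Pool.Agent.U583.MW.ft_closed i' (ft_sch X') ht'.closed) hm')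
  have a3 : cls U = cls U' :=
    cls_iso (Pool.Agent.U583.MW.ft_opened j (ft_sch X) ht.opened) e
  rw [cls_cut i j (ft_sch X) ht, cls_cut i' j' (ft_sch X') ht', a3,
    AddSubgroup.add_mem_cancel_left _ a1, AddSubgroup.add_mem_cancel_left _ a2]

theorem partC_built (hW : IsMotivicS W)
    (hS : ∀ Z : Sch k, FT True Z → topologicalKrullDim Z.left ≤ 2 → ClassIn (kunSet W) Z)
    (X : 𝒱.Obj) (m : ℕ) (hs : CoveredC W X.dim m) (Z U : Sch k) (i : Z ⟶ sch X)
    (j : U ⟶ sch X) (ht : IsTriple i j) (hm : topologicalKrullDim Z.left ≤ m)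
    (hU : Built (kunSet W) U) : KunnethC W X := by
  apply all_of_class' hW
  rw [InGenC, classIn_iff, cls_cut i j (ft_sch X) ht]
  refine AddSubgroup.add_mem _
    (classIn_iff.mp (hs Z (Pool.Agent.U583.MW.ft_closed i (ft_sch X) ht.closed) hm)) ?_
  exact classIn_iff.mp (inGenC_of_kun _
    (built_gen kun_ft kun_mul (fun Z h1 h2 => classIn_iff.mp (hS Z h1 h2)) hU).2)

/-! ### Parts of the theorem on the sign conjecture -/

/-- The varieties `Y` of the class with the sign conjecture. -/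
abbrev signSet (W : WeilCohomology.{0, v} ops) : Set (Sch k) := {c | ∃ Y, SignStd W Y ∧ c = sch Y}

theorem partS_class (hW : IsMotivicS W) (X : 𝒱.Obj) :
    SignStd W X ↔ ClassIn (signSet W) (sch X) := by
  rw [classIn_iff]
  constructor
  · exact fun h => cls_mem_gen ⟨X, h, rfl⟩
  · intro h
    rw [sign_iff]
    refine block_of_class hW (N := 0) (fun _ _ => Nat.zero_le _) (T := signSet W) ?_
      (gen_mono Set.subset_union_left h)
    rintro _ ⟨Y, hY, rfl⟩
    exact ⟨Y, sign_iff.mp hY, rfl⟩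

lemma sign_ft : ∀ c ∈ signSet W, FT True c := by
  rintro _ ⟨Y, -, rfl⟩
  exact ft_sch Y

lemma sign_mul : ∀ c ∈ signSet W, ∀ c' ∈ signSet W, tm c c' ∈ signSet W := by
  rintro _ ⟨Y, hY, rfl⟩ _ ⟨Y', hY', rfl⟩
  exact ⟨Y.prod Y', sign_iff.mpr (even_prod (sign_iff.mp hY) (sign_iff.mp hY')), rfl⟩

theorem partS_open (hW : IsMotivicS W) (X X' : 𝒱.Obj) (Z Z' U U' : Sch k) (i : Z ⟶ sch X)
    (j : U ⟶ sch X) (i' : Z' ⟶ sch X') (j' : U' ⟶ sch X') (ht : IsTriple i j)
    (ht' : IsTriple i' j') (e : Nonempty (U ≅ U')) (hs : ClassIn (signSet W) Z)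
    (hs' : ClassIn (signSet W) Z') : SignStd W X ↔ SignStd W X' := by
  rw [partS_class hW X, partS_class hW X', classIn_iff, classIn_iff]
  have a3 : cls U = cls U' :=
    cls_iso (Pool.Agent.U583.MW.ft_opened j (ft_sch X) ht.opened) e
  rw [cls_cut i j (ft_sch X) ht, cls_cut i' j' (ft_sch X') ht', a3,
    AddSubgroup.add_mem_cancel_left _ (classIn_iff.mp hs),
    AddSubgroup.add_mem_cancel_left _ (classIn_iff.mp hs')]

theorem partS_built (hW : IsMotivicS W)
    (hS : ∀ Z : Sch k, FT True Z → topologicalKrullDim Z.left ≤ 2 → ClassIn (signSet W) Z)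
    (X : 𝒱.Obj) (hU : Built (signSet W) (sch X)) : SignStd W X :=
  (partS_class hW X).mpr (classIn_iff.mpr
    (built_gen sign_ft sign_mul (fun Z h1 h2 => classIn_iff.mp (hS Z h1 h2)) hU).2)

end Pool.Agent.U738.KV
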