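import Pool.Agent.H914R2.KDefs
import Pool.Agent.Y116.UV.Defs
import Pool.Agent.U738.CX.FamDefs

/-!
# Additive invariants of schemes and the standard conjecture B: definitions
-/

set_option autoImplicit false

open CategoryTheory CategoryTheory.Limits AlgebraicGeometry Pool.Agent.Y116.UV Pool.Agent.U738.CX

universe w v

namespace Pool.Agent.U738.KV

variable {k : Type} [Field k]

/-- `e` is an additive invariant of the separated schemes of finite type over `k`: it is invariant
under isomorphisms, and `e(X) = e(Z) + e(U)` for a closed subscheme `Z` of `X` with the open complement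
`U`. In other words it is a homomorphism on the Grothendieck group `K₀(Var_k)`. -/
structure IsAdditive {G : Type w} [AddCommGroup G] (e : Sch k → G) : Prop where
  iso : ∀ {X Y : Sch k}, FT True X → Nonempty (X ≅ Y) → e X = e Y
  cut : ∀ {Z X U : Sch k} (i : Z ⟶ X) (j : U ⟶ X), FT True X → IsTriple i j → e X = e Z + e U

/-- The class of `X` in the Grothendieck group `K₀(Var_k)` lies in the subgroup generated by the classes
of the schemes `Y` in `S`: every additive invariant, with values in any commutative group, which
vanishes on the schemes in `S` vanishes on `X`. -/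
def ClassIn (S : Set (Sch k)) (X : Sch k) : Prop :=
  ∀ (G : Type 1) [AddCommGroup G] (e : Sch k → G), IsAdditive e → (∀ Y ∈ S, e Y = 0) → e X = 0

/-- The separated schemes of finite type over `k` of dimension less than `n / 2`. -/
def smallSet (k : Type) [Field k] (n : ℕ) : Set (Sch k) :=
  {Z | FT True Z ∧ ∃ m : ℕ, topologicalKrullDim Z.left ≤ m ∧ 2 * m < n}

/-- The product `X × T` over `k`. -/
noncomputable def tm (X T : Sch k) : Sch k := Over.mk (pullback.fst X.hom T.hom ≫ X.hom)

open Pool.Agent.H914 VarClass Obj WeilCohomology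

variable {𝒱 : VarClass k} {ops : CycleOps 𝒱}

/-- The variety `Y`, as a scheme over `k`. -/
noncomputable def sch (Y : 𝒱.Obj) : Sch k := Over.mk Y.V.str

/-- The space `H^j(X)`, as a type. -/
def Gr (W : WeilCohomology.{0, v} ops) (X : 𝒱.Obj) (j : ℕ) : Type v := {a : W.H X // a ∈ W.gr X j}

/-- The map `H^j(X) → H(Y)` given by the correspondence `z`. -/
noncomputable def corrOn (W : WeilCohomology.{0, v} ops) (X Y : 𝒱.Obj) (j : ℕ)
    (z : (X.prod Y).Cycles) : Gr W X j → W.H Y := fun a => W.corr (W.cl _ z) a.1

/-- The dimension of the space of the algebraic maps `H^j(X) → H^(j + 2 d)(Y)`, the `K`-linear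
combinations of the maps induced by algebraic cycles of codimension `dim X + d` on `X × Y`. -/
noncomputable def corrRank (W : WeilCohomology.{0, v} ops) (X Y : 𝒱.Obj) (j : ℕ) (d : ℤ) : ℕ :=
  Set.finrank W.K {f | ∃ (p : ℕ) (z : (X.prod Y).Cycles), (p : ℤ) = X.dim + d ∧
    (X.prod Y).IsCyc p z ∧ f = corrOn W X Y j z}

/-- For every variety `V` the dimensions of the spaces of algebraic maps from `H^j(V)` to `H^i(Z)` and
to `H_i(Z) = H^(2 dim Z - i)(Z)` are additive invariants of `Z`: there are additive invariants of
schemes with these values on the varieties `Z` of the class, and they vanish on the schemes of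
dimension `m` with `2 m < i`. -/
structure IsMotivic (W : WeilCohomology.{0, v} ops) : Prop where
  coh : ∀ (V : 𝒱.Obj) (j : ℕ) (d : ℤ), ∃ e : Sch k → ℤ, IsAdditive e ∧
    (∀ Z : 𝒱.Obj, e (sch Z) = corrRank W V Z j d) ∧
    ∀ (Z : Sch k) (m : ℕ), FT True Z → topologicalKrullDim Z.left ≤ m → 2 * (m : ℤ) < j + 2 * d →
      e Z = 0
  hom : ∀ (V : 𝒱.Obj) (j : ℕ) (s : ℤ), ∃ e : Sch k → ℤ, IsAdditive e ∧
    (∀ Z : 𝒱.Obj, e (sch Z) = corrRank W V Z j (Z.dim - s)) ∧
    ∀ (Z : Sch k) (m : ℕ), FT True Z → topologicalKrullDim Z.left ≤ m → 2 * (m : ℤ) < 2 * s - j →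
      e Z = 0

/-- The varieties `Y` which satisfy the conjecture B (for some divisor with hard Lefschetz). -/
def goodSet (W : WeilCohomology.{0, v} ops) : Set (Sch k) :=
  {c | ∃ (Y : 𝒱.Obj) (E : Y.Cycles), Y.IsCyc 1 E ∧ HardLefschetz W Y E ∧ LefschetzB W Y E ∧
    c = sch Y}

/-- The smallest class of schemes over `k` which contains the schemes in `S`, the schemes of dimension at
most `2`, the affine schemes given by any polynomials with at most two terms, with arbitrary
coefficients in a `k`-algebra of finite type of dimension at most `2`, and the affine schemes of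
finite type with an action of a diagonalizable group (a grading) of complexity at most `2`, and which
is closed under products and isomorphisms, and contains all three of a scheme `X` of finite type,
a closed subscheme `Z` and the open complement `U` as soon as it contains two of them. -/
inductive Built (S : Set (Sch k)) : Sch k → Prop
  | mem (Z : Sch k) : Z ∈ S → Built S Z
  | dim (Z : Sch k) : FT True Z → topologicalKrullDim Z.left ≤ 2 → Built S Z
  | terms (B : Type) [CommRing B] [Algebra k B] [Algebra.FiniteType k B] (n : ℕ)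
      (G : Set (MvPolynomial (Fin n) B)) : ringKrullDim B ≤ 2 →
      (∀ g ∈ G, g.support.card ≤ 2) → Built S (aff k (MvPolynomial (Fin n) B ⧸ Ideal.span G))
  | graded (A : Type) [CommRing A] [Algebra k A] [Algebra.FiniteType k A] (Γ : Type)
      [AddCommGroup Γ] [DecidableEq Γ] (𝒜 : Γ → Submodule k A) [GradedAlgebra 𝒜] :
      ComplexityLE 𝒜 2 → Built S (aff k A)
  | prod (X T : Sch k) : Built S X → Built S T → Built S (tm X T)
  | iso (X Y : Sch k) : Nonempty (X ≅ Y) → Built S X → Built S Y
  | glue {Z X U : Sch k} (i : Z ⟶ X) (j : U ⟶ X) : FT True X → IsTriple i j → Built S Z →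
      Built S U → Built S X
  | opened {Z X U : Sch k} (i : Z ⟶ X) (j : U ⟶ X) : FT True X → IsTriple i j → Built S Z →
      Built S X → Built S U
  | closed {Z X U : Sch k} (i : Z ⟶ X) (j : U ⟶ X) : FT True X → IsTriple i j → Built S U →
      Built S X → Built S Z

end Pool.Agent.U738.KV
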