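import Pool.Agent.U738.KV.Built

/-!
# Subgroups of the Grothendieck group generated by a set of schemes closed under products
-/

set_option autoImplicit false

open CategoryTheory AlgebraicGeometry Pool.Agent.Y116.UV TensorProduct Pool.Agent.U738.BN
  Pool.Agent.U738.CX Pool.Agent.Z125.UN

namespace Pool.Agent.U738.KV

variable {k : Type} [Field k] {T : Set (Sch k)}

/-- products in the subgroup generated by a set which is closed under products -/
lemma mul_gen (hft : ∀ c ∈ T, FT True c) (hmul : ∀ c ∈ T, ∀ c' ∈ T, tm c c' ∈ T) {S S' : Sch k}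
    (hS' : FT True S') (h1 : cls S ∈ gen T) (h2 : cls S' ∈ gen T) : cls (tm S S') ∈ gen T := by
  have a1 : ∀ c ∈ T, cls (tm c S') ∈ gen T := by
    intro c hc
    rw [cls_iso (ft_tm (hft c hc) hS') (tm_comm c S'), ← mulR_cls c (hft c hc)]
    have a2 : gen T ≤ (gen T).comap (mulR c (hft c hc)) := by
      rw [gen_le]
      intro c' hc'
      change mulR c (hft c hc) (cls c') ∈ gen T
      rw [mulR_cls]
      exact cls_mem_gen (hmul c' hc' c hc)
    exact a2 h2
  rw [← mulR_cls S' hS']
  have a3 : gen T ≤ (gen T).comap (mulR S' hS') := by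
    rw [gen_le]
    intro c hc
    change mulR S' hS' (cls c) ∈ gen T
    rw [mulR_cls]
    exact a1 c hc
  exact a3 h1

/-- the class is closed under the operations that are used for two-term equations and gradings -/
theorem posD_gen (hft : ∀ c ∈ T, FT True c) (hmul : ∀ c ∈ T, ∀ c' ∈ T, tm c c' ∈ T)
    (hS : ∀ Z : Sch k, FT True Z → topologicalKrullDim Z.left ≤ 2 → cls Z ∈ gen T) :
    PosD True (fun Z : Sch k => cls Z ∈ gen T) 2 where
  iso hX e h := (cls_iso hX e) ▸ h
  total i j hX ht h1 h2 := by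
    rw [cls_cut i j hX ht]
    exact (gen T).add_mem h1 h2
  times A _ _ _ h := by
    have h1 : cls (aff k (LaurentPolynomial k)) ∈ gen T := by
      refine hS _ (ft_aff True) ?_
      rw [topDim_aff]
      exact dim_laurent_le
    have h2 := mul_gen hft hmul (ft_aff True) h h1
    have h3 : Nonempty (tm (aff k A) (aff k (LaurentPolynomial k)) ≅
        aff k (LaurentPolynomial A)) :=
      ⟨(tmAff A (LaurentPolynomial k)).trans (affIso (laurentTensor A)).symm⟩
    rw [← cls_iso (ft_tm (ft_aff True) (ft_aff True)) h3]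
    exact h2
  dim A _ _ _ hA := by
    refine hS _ (ft_aff True) ?_
    rw [topDim_aff]
    exact hA

/-- the classes of the schemes that are built from pieces -/
theorem built_gen (hft : ∀ c ∈ T, FT True c) (hmul : ∀ c ∈ T, ∀ c' ∈ T, tm c c' ∈ T)
    (hS : ∀ Z : Sch k, FT True Z → topologicalKrullDim Z.left ≤ 2 → cls Z ∈ gen T)
    {Z : Sch k} (h : Built T Z) : FT True Z ∧ cls Z ∈ gen T := by
  have hP := posD_gen hft hmul hS
  induction h with
  | mem Z h => exact ⟨hft Z h, cls_mem_gen h⟩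
  | dim Z h1 h2 => exact ⟨h1, hS Z h1 h2⟩
  | terms S n G h1 h2 =>
    have h3 : Algebra.FiniteType k (MvPolynomial (Fin n) S ⧸ Ideal.span G) :=
      Algebra.FiniteType.trans (S := S) inferInstance inferInstance
    exact ⟨ft_aff True, two_terms hP S h1 n G h2⟩
  | graded A Γ 𝒜 h => exact ⟨ft_aff True, for_complexity hP A Γ 𝒜 h⟩
  | prod S T _ _ h1 h2 => exact ⟨ft_tm h1.1 h2.1, mul_gen hft hmul h2.1 h1.2 h2.2⟩
  | iso S T e _ h => exact ⟨e.elim (ft_iso h.1), (cls_iso h.1 e) ▸ h.2⟩
  | glue i j hX ht _ _ h1 h2 =>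
    refine ⟨hX, ?_⟩
    rw [cls_cut i j hX ht]
    exact AddSubgroup.add_mem _ h1.2 h2.2
  | opened i j hX ht _ _ h1 h2 =>
    refine ⟨Pool.Agent.U583.MW.ft_opened j hX ht.opened, ?_⟩
    have h3 := h2.2
    rw [cls_cut i j hX ht] at h3
    exact (AddSubgroup.add_mem_cancel_left _ h1.2).mp h3
  | closed i j hX ht _ _ h1 h2 =>
    refine ⟨Pool.Agent.U583.MW.ft_closed i hX ht.closed, ?_⟩
    have h3 := h2.2
    rw [cls_cut i j hX ht] at h3
    exact (AddSubgroup.add_mem_cancel_right _ h1.2).mp h3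

end Pool.Agent.U738.KV
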