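import Pool.Agent.U738.KV.Defs
import Pool.Agent.Z125.UN.Dim
import Pool.Agent.U583.MW.Geo

/-!
# The Grothendieck group of schemes of finite type over a field
-/

set_option autoImplicit false

open CategoryTheory CategoryTheory.Limits AlgebraicGeometry Pool.Agent.Y116.UV

namespace Pool.Agent.U738.KV

variable (k : Type) [Field k]

/-- The relations of the Grothendieck group of varieties: `[X] = [Y]` for isomorphic schemes `X`, `Y` of
finite type, and `[X] = [Z] + [U]` for a closed subscheme `Z` of `X` with the open complement `U`. -/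
inductive Rel : FreeAbelianGroup (Sch k) → Prop
  | iso {X Y : Sch k} (hX : FT True X) (h : Nonempty (X ≅ Y)) :
      Rel (FreeAbelianGroup.of X - FreeAbelianGroup.of Y)
  | cut {Z X U : Sch k} (i : Z ⟶ X) (j : U ⟶ X) (hX : FT True X) (h : IsTriple i j) :
      Rel (FreeAbelianGroup.of X - (FreeAbelianGroup.of Z + FreeAbelianGroup.of U))

/-- The Grothendieck group `K₀(Var_k)` of the separated schemes of finite type over `k`. (The schemes
that are not separated of finite type are free generators without relations.) -/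
def K0 : Type 1 := FreeAbelianGroup (Sch k) ⧸ AddSubgroup.closure {x | Rel k x}

noncomputable instance : AddCommGroup (K0 k) :=
  inferInstanceAs (AddCommGroup (FreeAbelianGroup (Sch k) ⧸ AddSubgroup.closure {x | Rel k x}))

variable {k}

/-- The class `[X]` of the scheme `X` in the Grothendieck group. -/
noncomputable def cls (X : Sch k) : K0 k :=
  QuotientAddGroup.mk' (AddSubgroup.closure {x | Rel k x}) (FreeAbelianGroup.of X)

lemma mk_eq_zero {x : FreeAbelianGroup (Sch k)} (h : Rel k x) :
    QuotientAddGroup.mk' (AddSubgroup.closure {x | Rel k x}) x = 0 :=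
  (QuotientAddGroup.eq_zero_iff x).mpr (AddSubgroup.subset_closure h)

lemma cls_iso {X Y : Sch k} (hX : FT True X) (h : Nonempty (X ≅ Y)) : cls X = cls Y := by
  have h1 := mk_eq_zero (Rel.iso hX h)
  rw [map_sub] at h1
  exact sub_eq_zero.mp h1

lemma cls_cut {Z X U : Sch k} (i : Z ⟶ X) (j : U ⟶ X) (hX : FT True X) (h : IsTriple i j) :
    cls X = cls Z + cls U := by
  have h1 := mk_eq_zero (Rel.cut i j hX h)
  rw [map_sub, map_add] at h1
  exact sub_eq_zero.mp h1

/-- Homomorphisms from the Grothendieck group. -/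
noncomputable def lift {G : Type*} [AddCommGroup G] (e : Sch k → G)
    (h1 : ∀ {X Y : Sch k}, FT True X → Nonempty (X ≅ Y) → e X = e Y)
    (h2 : ∀ {Z X U : Sch k} (i : Z ⟶ X) (j : U ⟶ X), FT True X → IsTriple i j →
      e X = e Z + e U) : K0 k →+ G :=
  QuotientAddGroup.lift _ (FreeAbelianGroup.lift e) (by
    rw [AddSubgroup.closure_le]
    rintro x (⟨hX, h⟩ | ⟨i, j, hX, h⟩)
    · change FreeAbelianGroup.lift e _ = 0
      rw [map_sub, FreeAbelianGroup.lift_apply_of, FreeAbelianGroup.lift_apply_of, h1 hX h, sub_self]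
    · change FreeAbelianGroup.lift e _ = 0
      rw [map_sub, map_add, FreeAbelianGroup.lift_apply_of, FreeAbelianGroup.lift_apply_of,
        FreeAbelianGroup.lift_apply_of, h2 i j hX h, sub_self])

lemma lift_cls {G : Type*} [AddCommGroup G] (e : Sch k → G)
    (h1 : ∀ {X Y : Sch k}, FT True X → Nonempty (X ≅ Y) → e X = e Y)
    (h2 : ∀ {Z X U : Sch k} (i : Z ⟶ X) (j : U ⟶ X), FT True X → IsTriple i j →
      e X = e Z + e U) (X : Sch k) : lift e h1 h2 (cls X) = e X := by
  change FreeAbelianGroup.lift e (FreeAbelianGroup.of X) = e X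
  exact FreeAbelianGroup.lift_apply_of _ _

lemma ft_tm {X T : Sch k} (hX : FT True X) (hT : FT True T) : FT True (tm X T) := by
  have a1 := hX.locallyOfFiniteType
  have a2 := hX.quasiCompact
  have a3 := hX.separated trivial
  have b1 := hT.locallyOfFiniteType
  have b2 := hT.quasiCompact
  have b3 := hT.separated trivial
  refine ⟨?_, ?_, fun _ => ?_⟩
  · change LocallyOfFiniteType (pullback.fst X.hom T.hom ≫ X.hom)
    infer_instance
  · change QuasiCompact (pullback.fst X.hom T.hom ≫ X.hom)
    infer_instance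
  · change IsSeparated (pullback.fst X.hom T.hom ≫ X.hom)
    infer_instance

/-- products of morphisms with `T`, on the underlying schemes -/
noncomputable def mapL (T : Sch k) {X Y : Sch k} (f : X ⟶ Y) :
    pullback X.hom T.hom ⟶ pullback Y.hom T.hom :=
  pullback.lift (pullback.fst X.hom T.hom ≫ f.left) (pullback.snd X.hom T.hom) (by
    rw [Category.assoc, Over.w, pullback.condition])

lemma mapL_fst (T : Sch k) {X Y : Sch k} (f : X ⟶ Y) :
    mapL T f ≫ pullback.fst Y.hom T.hom = pullback.fst X.hom T.hom ≫ f.left :=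
  pullback.lift_fst _ _ _

lemma mapL_snd (T : Sch k) {X Y : Sch k} (f : X ⟶ Y) :
    mapL T f ≫ pullback.snd Y.hom T.hom = pullback.snd X.hom T.hom :=
  pullback.lift_snd _ _ _

lemma mapL_pullback (T : Sch k) {X Y : Sch k} (f : X ⟶ Y) :
    IsPullback (mapL T f) (pullback.fst X.hom T.hom) (pullback.fst Y.hom T.hom) f.left := by
  refine IsPullback.of_right (h₁₂ := pullback.snd Y.hom T.hom) (h₂₂ := Y.hom) (v₁₃ := T.hom) ?_
    (mapL_fst T f) (IsPullback.of_hasPullback Y.hom T.hom).flip
  rw [mapL_snd, Over.w]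
  exact (IsPullback.of_hasPullback X.hom T.hom).flip

/-- products of morphisms with `T` -/
noncomputable def tmMap (T : Sch k) {X Y : Sch k} (f : X ⟶ Y) : tm X T ⟶ tm Y T :=
  Over.homMk (mapL T f) (by
    change mapL T f ≫ pullback.fst Y.hom T.hom ≫ Y.hom = pullback.fst X.hom T.hom ≫ X.hom
    rw [← Category.assoc, mapL_fst, Category.assoc, Over.w])

lemma triple_tm (T : Sch k) {Z X U : Sch k} {i : Z ⟶ X} {j : U ⟶ X} (h : IsTriple i j) :
    IsTriple (tmMap T i) (tmMap T j) := by
  have h1 := h.closed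
  have h2 := h.opened
  have a1 : IsClosedImmersion (mapL T i) := MorphismProperty.of_isPullback (mapL_pullback T i).flip h1
  have a2 : IsOpenImmersion (mapL T j) := MorphismProperty.of_isPullback (mapL_pullback T j).flip h2
  refine ⟨a1, a2, ?_⟩
  change Set.range (mapL T i) = (Set.range (mapL T j))ᶜ
  have e : ∀ {W : Sch k} (f : W ⟶ X), Set.range (mapL T f) =
      pullback.fst X.hom T.hom ⁻¹' Set.range f.left := by
    intro W f
    let ι := (mapL_pullback T f).isoPullback
    have h3 : mapL T f = ι.hom ≫ pullback.fst (pullback.fst X.hom T.hom) f.left :=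
      (IsPullback.isoPullback_hom_fst _).symm
    have h4 : Function.Surjective ι.hom := by
      exact (TopCat.homeoOfIso (Scheme.forgetToTop.mapIso ι)).surjective
    rw [← Scheme.Pullback.range_fst, h3]
    ext x
    constructor
    · rintro ⟨y, rfl⟩
      exact ⟨ι.hom y, (Scheme.Hom.comp_apply _ _ _).symm⟩
    · rintro ⟨y, rfl⟩
      obtain ⟨z, rfl⟩ := h4 y
      exact ⟨z, Scheme.Hom.comp_apply _ _ _⟩
  rw [e, e, h.compl, Set.preimage_compl]

/-- isomorphisms of products -/
lemma tm_iso (T : Sch k) {X Y : Sch k} (e : X ≅ Y) : Nonempty (tm X T ≅ tm Y T) := by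
  have h0 : IsIso e.hom.left := inferInstanceAs (IsIso ((Over.forget _).map e.hom))
  have h : IsIso (mapL T e.hom) := (mapL_pullback T e.hom).isIso_fst_of_isIso
  exact ⟨Over.isoMk (@asIso _ _ _ _ (mapL T e.hom) h) (Over.w (tmMap T e.hom))⟩

lemma mul_iso {T : Sch k} (hT : FT True T) {X Y : Sch k} (hX : FT True X) (h : Nonempty (X ≅ Y)) :
    cls (tm X T) = cls (tm Y T) := cls_iso (ft_tm hX hT) (h.elim (tm_iso T))

lemma mul_cut {T : Sch k} (hT : FT True T) {Z X U : Sch k} (i : Z ⟶ X) (j : U ⟶ X) (hX : FT True X)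
    (h : IsTriple i j) : cls (tm X T) = cls (tm Z T) + cls (tm U T) :=
  cls_cut (tmMap T i) (tmMap T j) (ft_tm hX hT) (triple_tm T h)

/-- Multiplication with the class of `T`. -/
noncomputable def mulR (T : Sch k) (hT : FT True T) : K0 k →+ K0 k :=
  lift (fun X => cls (tm X T)) (mul_iso hT) (mul_cut hT)

lemma mulR_cls (T : Sch k) (hT : FT True T) (X : Sch k) : mulR T hT (cls X) = cls (tm X T) :=
  lift_cls (fun X => cls (tm X T)) (mul_iso hT) (mul_cut hT) X

/-- the exchange of the factors -/
lemma tm_comm (X T : Sch k) : Nonempty (tm X T ≅ tm T X) :=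
  ⟨Over.isoMk (pullbackSymmetry X.hom T.hom) (by
    change (pullbackSymmetry X.hom T.hom).hom ≫ pullback.fst T.hom X.hom ≫ T.hom =
      pullback.fst X.hom T.hom ≫ X.hom
    rw [pullbackSymmetry_hom_comp_fst_assoc, pullback.condition])⟩

lemma isAdditive_cls : IsAdditive (fun X : Sch k => cls X) where
  iso := cls_iso
  cut := cls_cut

lemma IsAdditive.comp {G H : Type*} [AddCommGroup G] [AddCommGroup H] {e : Sch k → G}
    (he : IsAdditive e) (φ : G →+ H) : IsAdditive (fun X => φ (e X)) where
  iso hX h := by rw [he.iso hX h]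
  cut i j hX h := by rw [he.cut i j hX h, map_add]

/-- The homomorphism given by an additive invariant. -/
noncomputable def IsAdditive.hom {G : Type*} [AddCommGroup G] {e : Sch k → G}
    (he : IsAdditive e) : K0 k →+ G := lift e he.iso he.cut

lemma IsAdditive.hom_cls {G : Type*} [AddCommGroup G] {e : Sch k → G}
    (he : IsAdditive e) (X : Sch k) : he.hom (cls X) = e X := lift_cls e he.iso he.cut X

/-- The subgroup of the Grothendieck group generated by the classes of the schemes in `S`. -/
noncomputable def gen (S : Set (Sch k)) : AddSubgroup (K0 k) := AddSubgroup.closure (cls '' S)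

lemma cls_mem_gen {S : Set (Sch k)} {X : Sch k} (h : X ∈ S) : cls X ∈ gen S :=
  AddSubgroup.subset_closure ⟨X, h, rfl⟩

lemma gen_mono {S T : Set (Sch k)} (h : S ⊆ T) : gen S ≤ gen T :=
  AddSubgroup.closure_mono (Set.image_mono h)

lemma gen_le {S : Set (Sch k)} {H : AddSubgroup (K0 k)} : gen S ≤ H ↔ ∀ X ∈ S, cls X ∈ H := by
  rw [gen, AddSubgroup.closure_le]
  constructor
  · exact fun h X hX => h ⟨X, hX, rfl⟩
  · rintro h _ ⟨X, hX, rfl⟩
    exact h X hX

/-- **The class in terms of additive invariants.** -/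
lemma classIn_iff {S : Set (Sch k)} {X : Sch k} : ClassIn S X ↔ cls X ∈ gen S := by
  constructor
  · intro h
    have h1 := h (K0 k ⧸ gen S) (fun Y => QuotientAddGroup.mk' (gen S) (cls Y))
      (isAdditive_cls.comp _) (fun Y hY => (QuotientAddGroup.eq_zero_iff _).mpr (cls_mem_gen hY))
    exact (QuotientAddGroup.eq_zero_iff _).mp h1
  · intro h G _ e he h0
    have h1 : gen S ≤ he.hom.ker := by
      rw [gen_le]
      intro Y hY
      rw [AddMonoidHom.mem_ker, he.hom_cls, h0 Y hY]
    have h2 := h1 h
    rwa [AddMonoidHom.mem_ker, he.hom_cls] at h2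

end Pool.Agent.U738.KV
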