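import Pool.Agent.U738.KV.Blocks
import Pool.Agent.U738.KV.Gen

/-!
# The Künneth conjecture and the sign conjecture and the class in the Grothendieck group
-/

set_option autoImplicit false

open CategoryTheory AlgebraicGeometry Pool.Agent.Y116.UV

universe v

namespace Pool.Agent.U738.KV

open Pool.Agent.H914 Pool.Agent.H447 Pool.Agent.N103.OC VarClass Obj WeilCohomology

variable {k : Type} [Field k] {𝒱 : VarClass k} {ops : CycleOps 𝒱} {W : WeilCohomology.{0, v} ops}
  {X Y V : 𝒱.Obj}

/-- The middle component from the other components. -/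
lemma block_compl {n : ℕ} (h : ∀ j, j ≠ n → BlockStd W X {j}) : BlockStd W X {n} := by
  choose P hP h1 h2 using fun j hj => blockStd_iff.mp (h j hj)
  classical
  refine blockStd_iff.mpr ⟨LinearMap.id - ∑ j ∈ Finset.range (2 * X.dim + 1),
    if hj : j ≠ n then P j hj else 0, ?_, ?_, ?_⟩
  · refine Submodule.sub_mem _ (KOp.id X) (Submodule.sum_mem _ fun j _ => ?_)
    split_ifs with hj
    · exact hP j hj
    · exact Submodule.zero_mem _
  · rintro l rfl a ha
    rw [LinearMap.sub_apply, LinearMap.sum_apply, LinearMap.id_apply, Finset.sum_eq_zero, sub_zero]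
    intro j _
    split_ifs with hj
    · exact h2 j hj l (Ne.symm hj) a ha
    · rfl
  · intro l hl a ha
    by_cases hle : l ∈ Finset.range (2 * X.dim + 1)
    · rw [LinearMap.sub_apply, LinearMap.sum_apply, LinearMap.id_apply,
        Finset.sum_eq_single_of_mem l hle]
      · have hl' : l ≠ n := hl
        rw [dif_pos hl', h1 l hl' l rfl a ha, sub_self]
      · intro j _ hj
        split_ifs with hjn
        · exact h2 j hjn l (Ne.symm hj) a ha
        · rfl
    · rw [W.gr_eq_bot X l (by simp only [Finset.mem_range] at hle; omega)] at ha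
      rw [(Submodule.mem_bot _).1 ha, map_zero]

/-- The Künneth conjecture for `X`, with coefficients in `K`. -/
lemma all_iff : (∀ i, BlockStd W X {i}) ↔ ∀ i, proj (W.isInternal X) i ∈ KOp W X X 0 := by
  refine forall_congr' fun i => ?_
  rw [blockStd_iff]
  constructor
  · rintro ⟨P, hP, h1, h2⟩
    have e : P = proj (W.isInternal X) i := by
      apply gr_ext (W.isInternal X)
      intro j a ha
      by_cases hj : j = i
      · subst hj
        rw [h1 j rfl a ha, proj_same _ ha]
      · rw [h2 j hj a ha, proj_ne _ ha hj]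
    rwa [e] at hP
  · intro h
    refine ⟨_, h, ?_, ?_⟩
    · rintro j rfl a ha
      exact proj_same _ ha
    · intro j hj a ha
      exact proj_ne _ ha hj

/-- Products of varieties with the Künneth conjecture. -/
lemma all_prod (hX : ∀ i, BlockStd W X {i}) (hY : ∀ i, BlockStd W Y {i}) :
    ∀ i, BlockStd W (X.prod Y) {i} := by
  rw [all_iff] at hX hY ⊢
  exact (kop_class W).proj_prod hX hY

/-- The parity operator. -/
lemma even_iff : BlockStd W X {j | Even j} ↔ par (W.isInternal X) ∈ KOp W X X 0 := by
  have hid := KOp.id (W := W) X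
  rw [blockStd_iff]
  constructor
  · rintro ⟨P, hP, h1, h2⟩
    have e : par (W.isInternal X) = (2 : W.K) • P - LinearMap.id := by
      apply gr_ext (W.isInternal X)
      intro j a ha
      rw [par, scal_apply _ _ ha, LinearMap.sub_apply, LinearMap.smul_apply, LinearMap.id_apply]
      by_cases hj : Even j
      · rw [h1 j hj a ha, hj.neg_one_pow, one_smul, two_smul, add_sub_cancel_right]
      · rw [h2 j hj a ha, (Nat.not_even_iff_odd.1 hj).neg_one_pow, smul_zero, zero_sub, neg_smul,
          one_smul]
    rw [e]
    exact Submodule.sub_mem _ (Submodule.smul_mem _ _ hP) hid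
  · intro h
    have h2 : (2 : W.K) ≠ 0 := two_ne_zero
    refine ⟨(2 : W.K)⁻¹ • (par (W.isInternal X) + LinearMap.id),
      Submodule.smul_mem _ _ (Submodule.add_mem _ h hid), ?_, ?_⟩
    · intro j hj a ha
      rw [LinearMap.smul_apply, LinearMap.add_apply, par, scal_apply _ _ ha, LinearMap.id_apply,
        (show Even j from hj).neg_one_pow, one_smul, ← two_smul W.K a, smul_smul,
        inv_mul_cancel₀ h2, one_smul]
    · intro j hj a ha
      rw [LinearMap.smul_apply, LinearMap.add_apply, par, scal_apply _ _ ha, LinearMap.id_apply,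
        (Nat.not_even_iff_odd.1 hj).neg_one_pow, neg_smul, one_smul, neg_add_cancel, smul_zero]

/-- Products of varieties with the sign conjecture. -/
lemma even_prod (hX : BlockStd W X {j | Even j}) (hY : BlockStd W Y {j | Even j}) :
    BlockStd W (X.prod Y) {j | Even j} := by
  rw [even_iff] at hX hY ⊢
  rw [par_prod]
  exact (kop_class W).ext hX hY

/-- The sign conjecture with rational coefficients. -/
lemma sign_iff : SignStd W X ↔ BlockStd W X {j | Even j} := by
  have h0 : SignStd W X ↔ TH133.PW.EvenProjInSpan (W.gr X)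
      (TH133.PW.cycleOperators W X X.dim) := (TH133.PW.sign_tfae W X).out 0 1
  rw [h0, blockStd_iff, TH133.PW.EvenProjInSpan, TH133.PW.span_cycleOperators0]
  constructor
  · rintro ⟨P, hP, h⟩
    refine ⟨P, hP, fun j hj a ha => ?_, fun j hj a ha => ?_⟩
    · rw [h j a ha, if_pos (show Even j from hj)]
    · rw [h j a ha, if_neg (show ¬ Even j from hj)]
  · rintro ⟨P, hP, h1, h2⟩
    refine ⟨P, hP, fun j a ha => ?_⟩
    split_ifs with hj
    · exact h1 j hj a ha
    · exact h2 j hj a ha

/-- **The Künneth conjecture and the class.** -/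
theorem all_of_class (hW : IsMotivicS W) {T : Set (Sch k)}
    (hT : ∀ c ∈ T, ∃ Y : 𝒱.Obj, (∀ i, BlockStd W Y {i}) ∧ c = sch Y)
    (h : cls (sch X) ∈ gen (T ∪ smallSet k (X.dim + 1))) : ∀ i, BlockStd W X {i} := by
  have hgt : ∀ i, X.dim < i → BlockStd W X {i} := by
    intro i hi
    refine block_of_class hW (N := X.dim + 1) ?_ (T := T) ?_ h
    · rintro j rfl
      exact hi
    · intro c hc
      obtain ⟨Y, hY, rfl⟩ := hT c hc
      exact ⟨Y, hY i, rfl⟩
  have hne : ∀ i, i ≠ X.dim → BlockStd W X {i} := by
    intro i hi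
    rcases Nat.lt_or_gt_of_ne hi with hlt | h'
    · have h1 := block_dual (X := X) (i := 2 * X.dim - i) (by omega) (hgt _ (by omega))
      rwa [show 2 * X.dim - (2 * X.dim - i) = i by omega] at h1
    · exact hgt i h'
  intro i
  by_cases hi : i = X.dim
  · subst hi
    exact block_compl hne
  · exact hne i hi

end Pool.Agent.U738.KV
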