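import Pool.Agent.U738.KV.Ops
import Pool.Agent.U738.KV.Aff
import Pool.Agent.U738.CX.Fam

/-!
# Varieties whose classes are generated by varieties which satisfy the conjecture B
-/

set_option autoImplicit false

open CategoryTheory AlgebraicGeometry Pool.Agent.Y116.UV TensorProduct

universe v

namespace Pool.Agent.U738.KV

open Pool.Agent.H914 Pool.Agent.H447 Pool.Agent.W534 Pool.Agent.W537 Pool.Agent.TH720.LB VarClass Obj
  WeilCohomology

variable {k : Type} [Field k] {𝒱 : VarClass k} {ops : CycleOps 𝒱}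

lemma ft_sch (Y : 𝒱.Obj) : FT True (sch Y) := by
  have h1 : IsProper Y.V.str := Y.V.proper
  refine ⟨?_, ?_, fun _ => ?_⟩
  · change LocallyOfFiniteType Y.V.str
    infer_instance
  · change QuasiCompact Y.V.str
    infer_instance
  · change IsSeparated Y.V.str
    infer_instance

lemma sch_prod (X Y : 𝒱.Obj) : sch (X.prod Y) = tm (sch X) (sch Y) := rfl

variable {W : WeilCohomology.{0, v} ops} {X Y V : 𝒱.Obj}

lemma mem_good {E : Y.Cycles} (hE : Y.IsCyc 1 E) (hH : HardLefschetz W Y E)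
    (hB : LefschetzB W Y E) : cls (sch Y) ∈ gen (goodSet W) :=
  cls_mem_gen ⟨Y, E, hE, hH, hB, rfl⟩

/-- **The conjecture B depends on the class modulo varieties of small dimension.** -/
theorem B_iff (hW : IsMotivic W) {D : X.Cycles} (hD : X.IsCyc 1 D) (hHL : HardLefschetz W X D) :
    LefschetzB W X D ↔ cls (sch X) ∈ gen (goodSet W ∪ smallSet k X.dim) := by
  constructor
  · exact fun h => gen_mono Set.subset_union_left (mem_good hD hHL h)
  · intro h
    apply B_of_rank hD hHL
    intro c hc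
    obtain ⟨e1, a1, h1, h1'⟩ := hW.coh X (X.dim + c) 0
    obtain ⟨e2, a2, h2, h2'⟩ := hW.hom X (X.dim + c) ((X.dim + c : ℕ) : ℤ)
    have key : gen (goodSet W ∪ smallSet k X.dim) ≤ AddMonoidHom.eqLocus a1.hom a2.hom := by
      rw [gen_le]
      rintro _ (⟨Y, E, hE, hH, hB, rfl⟩ | ⟨hZ, m, hm, hmn⟩)
      · change a1.hom _ = a2.hom _
        rw [a1.hom_cls, a2.hom_cls, h1, h2, rank_of_B hE hH hB X (X.dim + c)]
      · change a1.hom _ = a2.hom _
        rw [a1.hom_cls, a2.hom_cls, h1' _ m hZ hm (by omega), h2' _ m hZ hm (by omega)]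
    have h3 : a1.hom (cls (sch X)) = a2.hom (cls (sch X)) := key h
    rw [a1.hom_cls, a2.hom_cls, h1, h2] at h3
    have h4 := Nat.cast_injective h3
    rw [h4]
    congr 1
    omega

/-- products with a scheme whose class is in the subgroup -/
lemma good_mul {S T : Sch k} (hT : FT True T) (h1 : cls S ∈ gen (goodSet W))
    (h2 : cls T ∈ gen (goodSet W)) : cls (tm S T) ∈ gen (goodSet W) := by
  have a1 : ∀ (Y : 𝒱.Obj) (E : Y.Cycles), Y.IsCyc 1 E → HardLefschetz W Y E → LefschetzB W Y E →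
      cls (tm (sch Y) T) ∈ gen (goodSet W) := by
    intro Y E hE hH hB
    rw [cls_iso (ft_tm (ft_sch Y) hT) (tm_comm (sch Y) T), ← mulR_cls (sch Y) (ft_sch Y)]
    have a2 : gen (goodSet W) ≤ (gen (goodSet W)).comap (mulR (sch Y) (ft_sch Y)) := by
      rw [gen_le]
      rintro _ ⟨Y', E', hE', hH', hB', rfl⟩
      change mulR (sch Y) (ft_sch Y) (cls (sch Y')) ∈ gen (goodSet W)
      rw [mulR_cls, ← sch_prod]
      exact mem_good (E := sumDiv ops E' E) (Pool.Agent.TH720.LB.isCyc_sumDiv hE' hE)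
        (TH125.Gal.hardLefschetz_prod hE' hE hH' hH)
        (Pool.Agent.X310.Mom.lefschetzB_prod hE' hE hH' hH hB' hB)
    exact a2 h2
  rw [← mulR_cls T hT]
  have a3 : gen (goodSet W) ≤ (gen (goodSet W)).comap (mulR T hT) := by
    rw [gen_le]
    rintro _ ⟨Y, E, hE, hH, hB, rfl⟩
    change mulR T hT (cls (sch Y)) ∈ gen (goodSet W)
    rw [mulR_cls]
    exact a1 Y E hE hH hB
  exact a3 h1

end Pool.Agent.U738.KV
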