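import Pool.Agent.U738.KV.K0
import Pool.Agent.X310.Mom5

/-!
# The class in the Grothendieck group and the standard conjecture B
-/

set_option autoImplicit false

open CategoryTheory AlgebraicGeometry Pool.Agent.Y116.UV

universe v

namespace Pool.Agent.U738.KV

open Pool.Agent.H914 Pool.Agent.H447 Pool.Agent.W534 VarClass Obj WeilCohomology

section Lin

variable {K M M' : Type*} [Field K] [AddCommGroup M] [Module K M] [AddCommGroup M'] [Module K M']

lemma finrank_le_of_inj [Module.Finite K M'] {A : Submodule K M} {B : Submodule K M'}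
    {T : M →ₗ[K] M'} (hT : ∀ x ∈ A, T x ∈ B) (hinj : ∀ x ∈ A, T x = 0 → x = 0) :
    Module.finrank K A ≤ Module.finrank K B := by
  have hker : LinearMap.ker (T.domRestrict A) = ⊥ := by
    rw [LinearMap.ker_eq_bot']
    rintro ⟨x, hx⟩ h0
    exact Subtype.ext (hinj x hx h0)
  have h1 := LinearMap.finrank_range_of_inj (LinearMap.ker_eq_bot.1 hker)
  rw [LinearMap.range_domRestrict] at h1
  rw [← h1]
  refine Submodule.finrank_mono ?_
  rintro _ ⟨f, hf, rfl⟩
  exact hT f hf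

end Lin

variable {k : Type} [Field k] {𝒱 : VarClass k} {ops : CycleOps 𝒱}

/-- The maps `H^j(X) → H^(j + 2 d)(Y)` which are induced by `K`-linear combinations of algebraic
correspondences (cycles of codimension `dim X + d` on `X × Y`), as a subspace of
`Hom(H^j(X), H(Y))`. -/
noncomputable def corrSpace (W : WeilCohomology.{0, v} ops) (X Y : 𝒱.Obj) (j : ℕ) (d : ℤ) :
    Submodule W.K (W.gr X j →ₗ[W.K] W.H Y) :=
  (KOp W X Y d).map (LinearMap.lcomp W.K (W.H Y) (W.gr X j).subtype)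

variable {W : WeilCohomology.{0, v} ops} {X Y V : 𝒱.Obj}

/-- The dimension of the space of algebraic maps `H^j(X) → H^(j + 2 d)(Y)`. -/
lemma corrRank_eq {j : ℕ} {d : ℤ} :
    corrRank W X Y j d = Module.finrank W.K (corrSpace W X Y j d) := by
  have hinj : Function.Injective (LinearMap.ltoFun W.K (W.gr X j) (W.H Y) W.K) :=
    DFunLike.coe_injective
  have h1 : {f : W.gr X j → W.H Y | ∃ (p : ℕ) (z : (X.prod Y).Cycles), (p : ℤ) = X.dim + d ∧
      (X.prod Y).IsCyc p z ∧ f = corrOn W X Y j z} =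
      LinearMap.ltoFun W.K (W.gr X j) (W.H Y) W.K ''
        (LinearMap.lcomp W.K (W.H Y) (W.gr X j).subtype ''
          {φ | ∃ p : ℕ, (p : ℤ) = X.dim + d ∧
            ∃ z, (X.prod Y).IsCyc p z ∧ W.corr (W.cl _ z) = φ}) := by
    ext f
    constructor
    · rintro ⟨p, z, hp, hz, rfl⟩
      exact ⟨_, ⟨_, ⟨p, hp, z, hz, rfl⟩, rfl⟩, rfl⟩
    · rintro ⟨_, ⟨_, ⟨p, hp, z, hz, rfl⟩, rfl⟩, rfl⟩
      exact ⟨p, z, hp, hz, rfl⟩
  rw [LinearEquiv.finrank_eq (Submodule.equivMapOfInjective _ hinj (corrSpace W X Y j d))]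
  change Set.finrank W.K {f : W.gr X j → W.H Y | ∃ (p : ℕ) (z : (X.prod Y).Cycles),
    (p : ℤ) = X.dim + d ∧ (X.prod Y).IsCyc p z ∧ f = corrOn W X Y j z} = _
  rw [Set.finrank, h1, corrSpace, KOp, Submodule.map_span, Submodule.map_span]

lemma mem_corrSpace {j : ℕ} {d : ℤ} {f : W.gr X j →ₗ[W.K] W.H Y} :
    f ∈ corrSpace W X Y j d ↔ ∃ φ ∈ KOp W X Y d, φ ∘ₗ (W.gr X j).subtype = f := Iff.rfl

lemma corr_hom {j : ℕ} {d : ℤ} {f : W.gr X j →ₗ[W.K] W.H Y} (hf : f ∈ corrSpace W X Y j d)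
    (a : W.gr X j) : f a ∈ grZ (W.gr Y) (j + 2 * d) := by
  obtain ⟨φ, hφ, rfl⟩ := mem_corrSpace.mp hf
  exact KOp.isHom hφ j a (by rw [grZ_natCast]; exact a.2)

lemma corrRank_zero {j : ℕ} {d : ℤ} (h : grZ (W.gr Y) (j + 2 * d) = ⊥) :
    corrRank W X Y j d = 0 := by
  have h1 : corrSpace W X Y j d = ⊥ := by
    rw [eq_bot_iff]
    intro f hf
    rw [Submodule.mem_bot]
    ext a
    have h2 := corr_hom hf a
    rw [h, Submodule.mem_bot] at h2
    exact h2
  rw [corrRank_eq, h1, finrank_bot]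

/-- composition with an algebraic correspondence -/
lemma comp_mem {j : ℕ} {d e : ℤ} {θ : W.H Y →ₗ[W.K] W.H Y} (hθ : θ ∈ KOp W Y Y e)
    {f : W.gr X j →ₗ[W.K] W.H Y} (hf : f ∈ corrSpace W X Y j d) :
    LinearMap.compRight W.K θ f ∈ corrSpace W X Y j (d + e) := by
  obtain ⟨φ, hφ, rfl⟩ := mem_corrSpace.mp hf
  exact mem_corrSpace.mpr ⟨θ ∘ₗ φ, KOp.comp hθ hφ, rfl⟩

lemma comp_inj {j : ℕ} {d : ℤ} {θ : W.H Y →ₗ[W.K] W.H Y}
    (hi : ∀ a ∈ grZ (W.gr Y) (j + 2 * d), θ a = 0 → a = 0)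
    {f : W.gr X j →ₗ[W.K] W.H Y} (hf : f ∈ corrSpace W X Y j d)
    (h0 : LinearMap.compRight W.K θ f = 0) : f = 0 := by
  ext a
  refine hi _ (corr_hom hf a) ?_
  exact congrArg (fun F => F a) h0

lemma rank_le {j : ℕ} {d e s : ℤ} (he : d + e = s) {θ : W.H Y →ₗ[W.K] W.H Y}
    (hθ : θ ∈ KOp W Y Y e) (hi : ∀ a ∈ grZ (W.gr Y) (j + 2 * d), θ a = 0 → a = 0) :
    corrRank W X Y j d ≤ corrRank W X Y j s := by
  subst he
  rw [corrRank_eq, corrRank_eq]
  exact finrank_le_of_inj (T := LinearMap.compRight W.K θ) (fun f hf => comp_mem hθ hf)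
    (fun f hf h0 => comp_inj hi hf h0)

lemma mulLeft_pow_mem {D : X.Cycles} (hD : X.IsCyc 1 D) (c : ℕ) :
    LinearMap.mulLeft W.K (W.cl X D) ^ c ∈ KOp W X X c := by
  have hOA := (rop_opAlg (W := W) (X := X)).kspan
  have h1 : LinearMap.mulLeft W.K (W.cl X D) ∈ KS (ROp W X) 1 :=
    Submodule.subset_span (rop_mulLeft hD)
  exact mem_KS_iff.mp (hOA.cast (hOA.pow h1 c) (by ring))

/-- **The conjecture B and the ranks of the spaces of algebraic maps.** -/
theorem rank_of_B {D : Y.Cycles} (hD : Y.IsCyc 1 D) (hHL : HardLefschetz W Y D)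
    (hB : LefschetzB W Y D) (V : 𝒱.Obj) (j : ℕ) :
    corrRank W V Y j 0 = corrRank W V Y j (Y.dim - j) := by
  have hinj := inj_of_lefschetzB hD hHL hB
  by_cases h2 : 2 * Y.dim < j
  · rw [corrRank_zero, corrRank_zero]
    · rw [grZ_of_neg (by omega)]
    · rw [mul_zero, add_zero, grZ_natCast, W.gr_eq_bot Y j h2]
  rcases Nat.le_total j Y.dim with h | h
  · obtain ⟨ν, hν, hi⟩ := hinj (Y.dim - j) (by omega)
    apply le_antisymm
    · refine rank_le (e := ((Y.dim - j : ℕ) : ℤ)) (by omega) (mulLeft_pow_mem hD (Y.dim - j)) ?_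
      intro a ha
      rw [mul_zero, add_zero, grZ_natCast] at ha
      exact (hHL j h).1 a ha
    · refine rank_le (e := -((Y.dim - j : ℕ) : ℤ)) (by omega) hν ?_
      intro a ha
      rw [show (j : ℤ) + 2 * ((Y.dim : ℤ) - j) = ((Y.dim + (Y.dim - j) : ℕ) : ℤ) by omega,
        grZ_natCast] at ha
      exact hi a ha
  · obtain ⟨ν, hν, hi⟩ := hinj (j - Y.dim) (by omega)
    apply le_antisymm
    · refine rank_le (e := -((j - Y.dim : ℕ) : ℤ)) (by omega) hν ?_
      intro a ha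
      rw [mul_zero, add_zero, grZ_natCast] at ha
      exact hi a (by rw [show Y.dim + (j - Y.dim) = j by omega]; exact ha)
    · refine rank_le (e := ((j - Y.dim : ℕ) : ℤ)) (by omega) (mulLeft_pow_mem hD (j - Y.dim)) ?_
      intro a ha
      rw [show (j : ℤ) + 2 * ((Y.dim : ℤ) - j) = ((2 * Y.dim - j : ℕ) : ℤ) by omega,
        grZ_natCast] at ha
      have h3 := (hHL (2 * Y.dim - j) (by omega)).1 a ha
      rwa [show Y.dim - (2 * Y.dim - j) = j - Y.dim by omega] at h3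

/-- **A criterion for the conjecture B.** -/
theorem B_of_rank {D : X.Cycles} (hD : X.IsCyc 1 D) (hHL : HardLefschetz W X D)
    (h : ∀ c ≤ X.dim, corrRank W X X (X.dim + c) 0 = corrRank W X X (X.dim + c) (-c)) :
    LefschetzB W X D := by
  apply lefschetzB_of_inj hD hHL
  intro c hc
  have hL := mulLeft_pow_mem (W := W) hD c
  have hid : (LinearMap.id : W.H X →ₗ[W.K] W.H X) ∘ₗ (W.gr X (X.dim + c)).subtype ∈
      corrSpace W X X (X.dim + c) 0 := mem_corrSpace.mpr ⟨_, KOp.id X, rfl⟩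
  obtain ⟨f, hf, hfe⟩ := surj_of_finrank_eq (A := corrSpace W X X (X.dim + c) (-c))
    (B := corrSpace W X X (X.dim + c) 0)
    (T := LinearMap.compRight W.K (LinearMap.mulLeft W.K (W.cl X D) ^ c))
    (fun x hx => by
      have h1 := comp_mem hL hx
      rwa [neg_add_cancel] at h1)
    (fun x hx h0 => by
      refine comp_inj ?_ hx h0
      intro a ha
      rw [show ((X.dim + c : ℕ) : ℤ) + 2 * (-(c : ℤ)) = ((X.dim - c : ℕ) : ℤ) by omega,
        grZ_natCast] at ha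
      have h3 := (hHL (X.dim - c) (by omega)).1 a ha
      rwa [show X.dim - (X.dim - c) = c by omega] at h3)
    (by rw [← corrRank_eq, ← corrRank_eq, h c hc]) _ hid
  obtain ⟨φ, hφ, rfl⟩ := mem_corrSpace.mp hf
  refine ⟨φ, hφ, fun a ha h0 => ?_⟩
  have h4 := congrArg (fun F => F ⟨a, ha⟩) hfe
  change (LinearMap.mulLeft W.K (W.cl X D) ^ c) (φ a) = a at h4
  rw [← h4, h0, map_zero]

end Pool.Agent.U738.KV
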