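import Pool.Agent.U738.KV.CDefs
import Pool.Agent.W537.OneCycleDefs

/-!
# One system of Künneth projectors for all theories: definitions
-/

set_option autoImplicit false

open CategoryTheory CategoryTheory.Limits AlgebraicGeometry Pool.Agent.Y116.UV

universe v

namespace Pool.Agent.U738.KV

open Pool.Agent.H914 Pool.Agent.W537 VarClass Obj WeilCohomology

variable {k : Type} [Field k] {𝒱 : VarClass k} {ops : CycleOps 𝒱}

/-- For every `j` and every cycle `z` of codimension `dim X` on `X × X` the traces of `z` on `H^j(X)` for the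
theories in `𝒲` are all equal to the same rational number. -/
def TracesAgree (𝒲 : Set (WeilCohomology.{0, v} ops)) (X : 𝒱.Obj) : Prop :=
  ∀ (j : ℕ) (z : (X.prod X).Cycles), (X.prod X).IsCyc X.dim z →
    ∃ q : ℚ, ∀ W ∈ 𝒲, TraceOn (W.gr X) j (cycOp W X z) q

/-- One cycle with rational coefficients on `X × X` induces the projector onto `H^i(X)` for all the theories
in `𝒲`. -/
def OneProj (𝒲 : Set (WeilCohomology.{0, v} ops)) (X : 𝒱.Obj) (i : ℕ) : Prop :=
  ∃ P, (X.prod X).IsCyc X.dim P ∧ ∀ W ∈ 𝒲, InducesProjector W X i P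

/-- The Künneth conjecture for `X`, with rational cycles and uniformly in the theory: for every `i` one
cycle with rational coefficients on `X × X` induces the projectors onto `H^i(X)` for all the theories
in `𝒲`. -/
def KunnethQ (𝒲 : Set (WeilCohomology.{0, v} ops)) (X : 𝒱.Obj) : Prop :=
  ∀ i, OneProj 𝒲 X i

/-- The varieties `Y` of the class with this property. -/
def kunSetQ (𝒲 : Set (WeilCohomology.{0, v} ops)) : Set (Sch k) :=
  {c | ∃ Y, KunnethQ 𝒲 Y ∧ c = sch Y}

/-- The class of `Z` is generated by the classes of the varieties `Y` which have such cycles for all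
degrees greater than `n` and the classes of the schemes of dimension at most `n / 2`. -/
def InGenQ (𝒲 : Set (WeilCohomology.{0, v} ops)) (n : ℕ) (Z : Sch k) : Prop :=
  ClassIn ({c | ∃ Y, (∀ i, n < i → OneProj 𝒲 Y i) ∧ c = sch Y} ∪
    smallSet k (n + 1)) Z

/-- This is so for all schemes of dimension at most `m`. -/
def CoveredQ (𝒲 : Set (WeilCohomology.{0, v} ops)) (n m : ℕ) : Prop :=
  ∀ Z : Sch k, FT True Z → topologicalKrullDim Z.left ≤ m → InGenQ 𝒲 n Z

end Pool.Agent.U738.KV
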