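import Pool.Agent.U738.KV.CParts
import Pool.Agent.U738.KV.QDefs
import Pool.Agent.TH133.PW.Kun

/-!
# One system of Künneth projectors for all theories and the class in the Grothendieck group
-/

set_option autoImplicit false

open CategoryTheory AlgebraicGeometry Pool.Agent.Y116.UV

universe v

namespace Pool.Agent.U738.KV

open Pool.Agent.H914 Pool.Agent.H447 Pool.Agent.TH133.PW VarClass Obj WeilCohomology

variable {k : Type} [Field k] {𝒱 : VarClass k} {ops : CycleOps 𝒱}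
  {𝒲 : Set (WeilCohomology.{0, v} ops)} {W : WeilCohomology.{0, v} ops}

/-- Rational cycles for all theories from combinations for one theory. -/
lemma one_iff (hT : ∀ X : 𝒱.Obj, TracesAgree 𝒲 X) (hW : W ∈ 𝒲) (X : 𝒱.Obj) (i : ℕ) :
    OneProj 𝒲 X i ↔ BlockStd W X {i} := by
  constructor
  · rintro ⟨P, hP, h⟩
    have h1 : IsProjector (W.gr X) i (W.corr (W.cl _ P)) := h W hW
    refine blockStd_iff.mpr ⟨W.corr (W.cl _ P), KOp.gen (p := X.dim) (by simp) hP, ?_, ?_⟩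
    · rintro j rfl a ha
      rw [h1 j a ha, if_pos rfl]
    · intro j hj a ha
      rw [h1 j a ha, if_neg (show j ≠ i from hj)]
  · intro h
    obtain ⟨P, hP, h1, h2⟩ := blockStd_iff.mp h
    refine oneProjector_of_span (𝒲 := 𝒲) (show SameTracesAll 𝒲 X from hT X) hW
      ⟨P, ?_, fun j a ha => ?_⟩
    · rw [span_cycleOperators0]
      exact hP
    · split_ifs with hj
      · exact h1 j hj a ha
      · exact h2 j hj a ha

lemma kunnethQ_iff (hT : ∀ X : 𝒱.Obj, TracesAgree 𝒲 X) (hW : W ∈ 𝒲) (X : 𝒱.Obj) :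
    KunnethQ 𝒲 X ↔ KunnethC W X := forall_congr' fun i => one_iff hT hW X i

lemma kunSetQ_eq (hT : ∀ X : 𝒱.Obj, TracesAgree 𝒲 X) (hW : W ∈ 𝒲) :
    kunSetQ 𝒲 = kunSet W := by
  ext c
  exact exists_congr fun Y => and_congr_left' (kunnethQ_iff hT hW Y)

lemma inGenQ_iff (hT : ∀ X : 𝒱.Obj, TracesAgree 𝒲 X) (hW : W ∈ 𝒲) (n : ℕ) (Z : Sch k) :
    InGenQ 𝒲 n Z ↔ InGenC W n Z := by
  have h1 : {c | ∃ Y : 𝒱.Obj, (∀ i, n < i → OneProj 𝒲 Y i) ∧ c = sch Y} =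
      {c | ∃ Y : 𝒱.Obj, (∀ i, n < i → BlockStd W Y {i}) ∧ c = sch Y} := by
    ext c
    exact exists_congr fun Y => and_congr_left' (forall_congr' fun i =>
      imp_congr_right fun _ => one_iff hT hW Y i)
  rw [InGenQ, InGenC, h1]

lemma coveredQ_iff (hT : ∀ X : 𝒱.Obj, TracesAgree 𝒲 X) (hW : W ∈ 𝒲) (n m : ℕ) :
    CoveredQ 𝒲 n m ↔ CoveredC W n m :=
  forall_congr' fun Z => imp_congr_right fun _ => imp_congr_right fun _ => inGenQ_iff hT hW n Z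

theorem partQ_one (hT : ∀ X : 𝒱.Obj, TracesAgree 𝒲 X) (hW : W ∈ 𝒲) (hM : IsMotivicS W)
    (X : 𝒱.Obj) (i : ℕ) : OneProj 𝒲 X i ↔
    ClassIn ({c | ∃ Y : 𝒱.Obj, OneProj 𝒲 Y i ∧ c = sch Y} ∪ smallSet k i)
      (sch X) := by
  have h1 : {c | ∃ Y : 𝒱.Obj, OneProj 𝒲 Y i ∧ c = sch Y} =
      {c | ∃ Y : 𝒱.Obj, BlockStd W Y {i} ∧ c = sch Y} := by
    ext c
    exact exists_congr fun Y => and_congr_left' (one_iff hT hW Y i)
  rw [one_iff hT hW, h1]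
  exact partC_one hM X i

theorem partQ_covered (hT : ∀ X : 𝒱.Obj, TracesAgree 𝒲 X) (hW : W ∈ 𝒲) (n m : ℕ)
    (h : 2 * m ≤ n) : CoveredQ 𝒲 n m := (coveredQ_iff hT hW n m).mpr (partC_covered n m h)

theorem partQ_class (hT : ∀ X : 𝒱.Obj, TracesAgree 𝒲 X) (hW : W ∈ 𝒲) (hM : IsMotivicS W)
    (X : 𝒱.Obj) : KunnethQ 𝒲 X ↔ InGenQ 𝒲 X.dim (sch X) := by
  rw [kunnethQ_iff hT hW, inGenQ_iff hT hW]
  exact partC_class hM X

theorem partQ_open (hT : ∀ X : 𝒱.Obj, TracesAgree 𝒲 X) (hW : W ∈ 𝒲) (hM : IsMotivicS W)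
    (X X' : 𝒱.Obj) (m : ℕ) (hdim : X.dim = X'.dim)
    (hs : CoveredQ 𝒲 X.dim m) (Z Z' U U' : Sch k) (i : Z ⟶ sch X)
    (j : U ⟶ sch X) (i' : Z' ⟶ sch X') (j' : U' ⟶ sch X') (ht : IsTriple i j)
    (ht' : IsTriple i' j') (e : Nonempty (U ≅ U')) (hm : topologicalKrullDim Z.left ≤ m)
    (hm' : topologicalKrullDim Z'.left ≤ m) : KunnethQ 𝒲 X ↔ KunnethQ 𝒲 X' := by
  rw [kunnethQ_iff hT hW, kunnethQ_iff hT hW]
  exact partC_open hM X X' m hdim ((coveredQ_iff hT hW _ _).mp hs) Z Z' U U' i j i' j' ht ht' e hm hm'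

theorem partQ_built (hT : ∀ X : 𝒱.Obj, TracesAgree 𝒲 X) (hW : W ∈ 𝒲) (hM : IsMotivicS W)
    (hS : ∀ Z : Sch k, FT True Z → topologicalKrullDim Z.left ≤ 2 → ClassIn (kunSetQ 𝒲) Z)
    (X : 𝒱.Obj) (m : ℕ) (hs : CoveredQ 𝒲 X.dim m) (Z U : Sch k) (i : Z ⟶ sch X)
    (j : U ⟶ sch X) (ht : IsTriple i j) (hm : topologicalKrullDim Z.left ≤ m)
    (hU : Built (kunSetQ 𝒲) U) : KunnethQ 𝒲 X := by
  rw [kunnethQ_iff hT hW]
  rw [kunSetQ_eq hT hW] at hS hU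
  exact partC_built hM hS X m ((coveredQ_iff hT hW _ _).mp hs) Z U i j ht hm hU

end Pool.Agent.U738.KV
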